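import Mathlib

/-!
Simultaneous recurrence and the two-dimensional Kronecker theorem for closed subgroups of the plane.
-/

open Set Topology Filter

namespace Pool.Agent.R239.NilRet

/-- Simultaneous recurrence. -/
lemma recur (α β ε : ℝ) (hε : 0 < ε) :
    ∃ n : ℕ, 0 < n ∧ ∃ P Q : ℤ, |n * α - 2 * P| < ε ∧ |n * β - Q| < ε := by
  set f : ℕ → ℝ × ℝ := fun n => (n * α - 2 * ⌊n * α / 2⌋, n * β - ⌊n * β⌋) with hf
  have hmem : ∀ n, f n ∈ Icc (0 : ℝ) 2 ×ˢ Icc (0 : ℝ) 1 := by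
    intro n
    have h1 := Int.floor_le (n * α / 2)
    have h2 := Int.lt_floor_add_one (n * α / 2)
    have h3 := Int.floor_le (n * β)
    have h4 := Int.lt_floor_add_one (n * β)
    refine ⟨⟨?_, ?_⟩, ⟨?_, ?_⟩⟩ <;> simp only [hf] <;> linarith
  obtain ⟨a, -, φ, hφ, hlim⟩ := (isCompact_Icc.prod isCompact_Icc).tendsto_subseq hmem
  obtain ⟨N, hN⟩ := Metric.cauchySeq_iff.mp hlim.cauchySeq ε hε
  have hd := hN (N + 1) (by omega) N le_rfl
  have hlt : φ N < φ (N + 1) := hφ (by omega)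
  rw [Function.comp_apply, Function.comp_apply, Prod.dist_eq, max_lt_iff] at hd
  obtain ⟨hd1, hd2⟩ := hd
  rw [Real.dist_eq] at hd1 hd2
  simp only [hf] at hd1 hd2
  refine ⟨φ (N + 1) - φ N, by omega, ⌊φ (N + 1) * α / 2⌋ - ⌊φ N * α / 2⌋,
    ⌊φ (N + 1) * β⌋ - ⌊φ N * β⌋, ?_, ?_⟩
  · refine lt_of_eq_of_lt ?_ hd1
    rw [Nat.cast_sub hlt.le]
    push_cast
    congr 1
    ring
  · refine lt_of_eq_of_lt ?_ hd2
    rw [Nat.cast_sub hlt.le]
    push_cast
    congr 1
    ring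

lemma line_top (S : AddSubgroup ℝ) (hS : IsClosed (S : Set ℝ)) {a b : ℝ} (ha : a ∈ S) (hb : b ∈ S)
    (hab : Irrational (a / b)) (t : ℝ) : t ∈ S := by
  have hd : Dense (AddSubgroup.closure {a, b} : Set ℝ) := dense_addSubgroupClosure_pair_iff.mpr hab
  have hle : AddSubgroup.closure {a, b} ≤ S := by
    rw [AddSubgroup.closure_le]
    intro x hx
    rcases hx with rfl | hx
    · exact ha
    · rw [mem_singleton_iff] at hx; rw [hx]; exact hb
  have hd2 : Dense (S : Set ℝ) := hd.mono hle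
  have := hd2.closure_eq
  rw [hS.closure_eq] at this
  have ht : t ∈ (S : Set ℝ) := by rw [this]; trivial
  exact ht

/-- A closed subgroup of the plane with arbitrarily small nonzero elements contains a line. -/
lemma exists_line (K : AddSubgroup (ℝ × ℝ)) (hK : IsClosed (K : Set (ℝ × ℝ)))
    (hsmall : ∀ ε : ℝ, 0 < ε → ∃ v ∈ K, v ≠ 0 ∧ ‖v‖ < ε) :
    ∃ v : ℝ × ℝ, v ≠ 0 ∧ ∀ t : ℝ, t • v ∈ K := by
  have hpos : ∀ j : ℕ, (0 : ℝ) < 1 / (j + 1) := fun j => by positivity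
  choose v hvK hv0 hvn using fun j : ℕ => hsmall (1 / ((j : ℝ) + 1)) (hpos j)
  have hvn0 : Tendsto (fun j => ‖v j‖) atTop (𝓝 0) := by
    refine squeeze_zero (fun j => norm_nonneg _) (fun j => (hvn j).le) ?_
    exact tendsto_one_div_add_atTop_nhds_zero_nat
  have hw : ∀ j, ‖v j‖⁻¹ • v j ∈ Metric.sphere (0 : ℝ × ℝ) 1 := by
    intro j
    rw [mem_sphere_zero_iff_norm, norm_smul, norm_inv, norm_norm]
    exact inv_mul_cancel₀ (norm_ne_zero_iff.mpr (hv0 j))
  obtain ⟨w, hwS, φ, hφ, hlim⟩ := (isCompact_sphere (0 : ℝ × ℝ) 1).tendsto_subseq hw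
  refine ⟨w, ?_, ?_⟩
  · rintro rfl
    simp at hwS
  · intro t
    have hmem : ∀ j, (⌊t / ‖v (φ j)‖⌋ : ℤ) • v (φ j) ∈ K := fun j => K.zsmul_mem (hvK _) _
    have hscal : Tendsto (fun j => (⌊t / ‖v (φ j)‖⌋ : ℝ) * ‖v (φ j)‖) atTop (𝓝 t) := by
      have h1 : Tendsto (fun j => ‖v (φ j)‖) atTop (𝓝 0) := hvn0.comp hφ.tendsto_atTop
      have h2 : Tendsto (fun j => t - ‖v (φ j)‖) atTop (𝓝 (t - 0)) := tendsto_const_nhds.sub h1
      rw [sub_zero] at h2
      refine tendsto_of_tendsto_of_tendsto_of_le_of_le h2 tendsto_const_nhds ?_ ?_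
      · intro j
        have hp : 0 < ‖v (φ j)‖ := norm_pos_iff.mpr (hv0 _)
        have h3 := Int.lt_floor_add_one (t / ‖v (φ j)‖)
        have h4 : t < (⌊t / ‖v (φ j)‖⌋ + 1) * ‖v (φ j)‖ := (div_lt_iff₀ hp).mp h3
        show t - ‖v (φ j)‖ ≤ _
        linarith
      · intro j
        have hp : 0 < ‖v (φ j)‖ := norm_pos_iff.mpr (hv0 _)
        exact (le_div_iff₀ hp).mp (Int.floor_le (t / ‖v (φ j)‖))
    have hl2 : Tendsto (fun j => (⌊t / ‖v (φ j)‖⌋ : ℤ) • v (φ j)) atTop (𝓝 (t • w)) := by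
      have := hscal.smul hlim
      refine this.congr (fun j => ?_)
      show ((⌊t / ‖v (φ j)‖⌋ : ℝ) * ‖v (φ j)‖) • (‖v (φ j)‖⁻¹ • v (φ j)) = _
      rw [smul_smul, mul_assoc, mul_inv_cancel₀ (norm_ne_zero_iff.mpr (hv0 _)), mul_one]
      exact Int.cast_smul_eq_zsmul ℝ _ _
    exact hK.mem_of_tendsto hl2 (Eventually.of_forall hmem)

theorem plane_top (α β : ℝ) (hα : Irrational α) (hind : ∀ r s : ℚ, β ≠ r * α + s)
    (K : AddSubgroup (ℝ × ℝ)) (hK : IsClosed (K : Set (ℝ × ℝ))) (h1 : (α, β) ∈ K)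
    (h2 : ((2 : ℝ), (0 : ℝ)) ∈ K) (h3 : ((0 : ℝ), (1 : ℝ)) ∈ K) (v : ℝ × ℝ) : v ∈ K := by
  have hsmall : ∀ ε : ℝ, 0 < ε → ∃ v ∈ K, v ≠ 0 ∧ ‖v‖ < ε := by
    intro ε hε
    obtain ⟨n, hn, P, Q, hP, hQ⟩ := recur α β ε hε
    refine ⟨(n * α - 2 * P, n * β - Q), ?_, ?_, ?_⟩
    · have e1 := K.nsmul_mem h1 n
      have e2 := K.zsmul_mem h2 (-P)
      have e3 := K.zsmul_mem h3 (-Q)
      have e4 := K.add_mem (K.add_mem e1 e2) e3
      convert e4 using 1
      ext
      · simp; ring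
      · simp; ring
    · intro h0
      have h01 : (n : ℝ) * α - 2 * P = 0 := congrArg Prod.fst h0
      have hn' : (n : ℝ) ≠ 0 := by exact_mod_cast hn.ne'
      apply hα
      refine ⟨2 * P / n, ?_⟩
      push_cast
      field_simp
      linarith
    · rw [Prod.norm_def]
      exact max_lt hP hQ
  obtain ⟨w, hw0, hw⟩ := exists_line K hK hsmall
  set Ky : AddSubgroup ℝ := K.comap (AddMonoidHom.inr ℝ ℝ) with hKy
  have hKyc : IsClosed (Ky : Set ℝ) := hK.preimage (continuous_const.prodMk continuous_id)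
  set Kx : AddSubgroup ℝ := K.comap (AddMonoidHom.inl ℝ ℝ) with hKx
  have hKxc : IsClosed (Kx : Set ℝ) := hK.preimage (continuous_id.prodMk continuous_const)
  have mKy : ∀ b : ℝ, b ∈ Ky ↔ ((0 : ℝ), b) ∈ K := fun b => Iff.rfl
  have mKx : ∀ a : ℝ, a ∈ Kx ↔ (a, (0 : ℝ)) ∈ K := fun a => Iff.rfl
  by_cases hw1 : w.1 = 0
  · have hw2 : w.2 ≠ 0 := fun h => hw0 (Prod.ext hw1 h)
    have hy : ∀ b : ℝ, ((0 : ℝ), b) ∈ K := by
      intro b
      have := hw (b / w.2)
      convert this using 1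
      ext
      · simp [hw1]
      · simp [hw2]
    have hαx : α ∈ Kx := by
      rw [mKx]
      have := K.add_mem h1 (hy (-β))
      simpa using this
    have h2x : (2 : ℝ) ∈ Kx := h2
    have hir : Irrational (α / 2) := by
      have := hα.div_natCast (m := 2) (by norm_num)
      simpa using this
    have hall : v.1 ∈ Kx := line_top Kx hKxc hαx h2x hir v.1
    have := K.add_mem ((mKx _).mp hall) (hy v.2)
    simpa using this
  · set ρ : ℝ := w.2 / w.1 with hρ
    have hline : ∀ t : ℝ, (t, t * ρ) ∈ K := by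
      intro t
      have := hw (t / w.1)
      convert this using 1
      ext
      · simp [hw1]
      · simp [hρ]; ring
    have ha : β - α * ρ ∈ Ky := by
      rw [mKy]
      have := K.sub_mem h1 (hline α)
      simpa using this
    have hb : -(2 * ρ) ∈ Ky := by
      rw [mKy]
      have := K.sub_mem h2 (hline 2)
      simpa using this
    have h1y : (1 : ℝ) ∈ Ky := h3
    have hirr : Irrational (β - α * ρ) ∨ Irrational (-(2 * ρ)) := by
      by_contra hcon
      rw [not_or] at hcon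
      obtain ⟨c1, c2⟩ := hcon
      unfold Irrational at c1 c2
      rw [not_not] at c1 c2
      obtain ⟨s, hs⟩ := c1
      obtain ⟨r, hr⟩ := c2
      apply hind (-r / 2) s
      have hρr : ρ = -r / 2 := by linarith
      push_cast
      rw [← hρr, hs]
      ring
    have hall : ∀ b : ℝ, b ∈ Ky := by
      intro b
      rcases hirr with h | h
      · exact line_top Ky hKyc ha h1y (by simpa using h) b
      · exact line_top Ky hKyc hb h1y (by simpa using h) b
    have := K.add_mem (hline v.1) ((mKy _).mp (hall (v.2 - v.1 * ρ)))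
    simpa using this

lemma indep : ∀ r s : ℚ, Real.sqrt 3 ≠ r * Real.sqrt 2 + s := by
  intro r s h
  have h2 : Irrational (Real.sqrt 2) := irrational_sqrt_two
  have h3 : Irrational (Real.sqrt 3) := by
    have := Nat.Prime.irrational_sqrt (p := 3) (by norm_num)
    simpa using this
  have h6 : Irrational (Real.sqrt 6) := by norm_num
  have e2 : Real.sqrt 2 ^ 2 = 2 := Real.sq_sqrt (by norm_num)
  have e3 : Real.sqrt 3 ^ 2 = 3 := Real.sq_sqrt (by norm_num)
  have e6 : Real.sqrt 3 * Real.sqrt 2 = Real.sqrt 6 := by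
    rw [← Real.sqrt_mul (by norm_num)]; norm_num
  by_cases hr : r = 0
  · apply h3
    refine ⟨s, ?_⟩
    rw [h, hr]; simp
  by_cases hs : s = 0
  · apply h6
    refine ⟨2 * r, ?_⟩
    rw [← e6, h, hs]
    push_cast
    rw [add_zero, mul_assoc, ← sq, e2]
    ring
  · apply h2
    have hr' : (r : ℝ) ≠ 0 := by exact_mod_cast hr
    have hs' : (s : ℝ) ≠ 0 := by exact_mod_cast hs
    refine ⟨(3 - 2 * r ^ 2 - s ^ 2) / (2 * r * s), ?_⟩
    push_cast
    rw [div_eq_iff (by positivity)]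
    have h4 : Real.sqrt 3 ^ 2 = (r * Real.sqrt 2 + s) ^ 2 := by rw [h]
    rw [e3] at h4
    nlinarith [h4, e2]

end Pool.Agent.R239.NilRet
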