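import Pool.Agent.R239.NilRet.Basic

/-!
A small open box in the Heisenberg nilmanifold has asymmetric closure, and so has its preimage in
the double cover.
-/

open Set Topology Filter
open scoped Pointwise

namespace Pool.Agent.R239.NilRet

open Heis

/-- The open box with side `1/4`. -/
def boxO : Set Heis :=
  {g | g.x ∈ Ioo (0 : ℝ) (1 / 4) ∧ g.y ∈ Ioo (0 : ℝ) (1 / 4) ∧ g.z ∈ Ioo (0 : ℝ) (1 / 4)}

/-- The closed box with side `1/4`. -/
def boxC : Set Heis :=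
  {g | g.x ∈ Icc (0 : ℝ) (1 / 4) ∧ g.y ∈ Icc (0 : ℝ) (1 / 4) ∧ g.z ∈ Icc (0 : ℝ) (1 / 4)}

lemma closure_boxO : closure boxO = boxC := by
  have h : closure (Ioo (0 : ℝ) (1 / 4) ×ˢ (Ioo (0 : ℝ) (1 / 4) ×ˢ Ioo (0 : ℝ) (1 / 4))
      : Set (ℝ × ℝ × ℝ)) =
      Icc (0 : ℝ) (1 / 4) ×ˢ (Icc (0 : ℝ) (1 / 4) ×ˢ Icc (0 : ℝ) (1 / 4)) := by
    rw [closure_prod_eq, closure_prod_eq, closure_Ioo (by norm_num)]
  exact h

lemma isOpen_boxO : IsOpen boxO := by
  have h : IsOpen (Ioo (0 : ℝ) (1 / 4) ×ˢ (Ioo (0 : ℝ) (1 / 4) ×ˢ Ioo (0 : ℝ) (1 / 4))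
      : Set (ℝ × ℝ × ℝ)) := isOpen_Ioo.prod (isOpen_Ioo.prod isOpen_Ioo)
  exact h

lemma isCompact_boxC : IsCompact boxC := isCompact_box 0 (1 / 4) 0 (1 / 4) 0 (1 / 4)

/-- The image of the open box in the nilmanifold of the integer lattice. -/
def U2 : Set (Heis ⧸ Gam2) := (fun g : Heis => (g : Heis ⧸ Gam2)) '' boxO

/-- The preimage of `U2` in the double cover. -/
def U1 : Set (Heis ⧸ Gam1) := proj ⁻¹' U2

lemma isOpen_U2 : IsOpen U2 := QuotientGroup.isOpenMap_coe (N := Gam2) _ isOpen_boxO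

lemma isOpen_U1 : IsOpen U1 := isOpen_U2.preimage proj_continuous

lemma isClosed_image_boxC : IsClosed ((fun g : Heis => (g : Heis ⧸ Gam2)) '' boxC) := by
  rw [← (QuotientGroup.isQuotientMap_mk (N := Gam2)).isClosed_preimage]
  have h := QuotientGroup.preimage_image_mk_eq_mul Gam2 boxC
  have hcl : IsClosed (Gam2 : Set Heis) := Subgroup.isClosed_of_discrete
  have h2 : IsClosed (boxC * (Gam2 : Set Heis)) := hcl.mul_left_of_isCompact isCompact_boxC
  rw [← h] at h2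
  exact h2

lemma closure_U2 : closure U2 = (fun g : Heis => (g : Heis ⧸ Gam2)) '' boxC := by
  apply Subset.antisymm
  · apply closure_minimal _ isClosed_image_boxC
    apply image_mono
    rw [← closure_boxO]
    exact subset_closure
  · rw [← closure_boxO]
    exact image_closure_subset_closure_image QuotientGroup.continuous_mk

lemma closure_U1 : closure U1 = proj ⁻¹' (closure U2) :=
  (proj_isOpenMap.preimage_closure_eq_closure_preimage proj_continuous U2).symm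

lemma key_rel (g : Heis) (h : g • closure U2 ⊆ closure U2) (k : Heis) (hk : k ∈ boxC) :
    ∃ p q r : ℤ, ∃ k' ∈ boxC, g.x + k.x = k'.x + p ∧ g.y + k.y = k'.y + q ∧
      g.z + k.z + g.x * k.y = k'.z + r + k'.x * q := by
  have h1 : ((g * k : Heis) : Heis ⧸ Gam2) ∈ closure U2 := by
    apply h
    refine ⟨(k : Heis ⧸ Gam2), ?_, rfl⟩
    rw [closure_U2]
    exact ⟨k, hk, rfl⟩
  rw [closure_U2] at h1
  obtain ⟨k', hk', he⟩ := h1
  have h2 : k'⁻¹ * (g * k) ∈ Gam2 := QuotientGroup.eq.mp he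
  obtain ⟨⟨p, hp⟩, ⟨q, hq⟩, ⟨r, hr⟩⟩ := h2
  simp only [mul_x, mul_y, mul_z, inv_x, inv_y, inv_z] at hp hq hr
  refine ⟨p, q, r, k', hk', by linarith, by linarith, ?_⟩
  rw [← hq, ← hr]
  ring

lemma int_eq_of_abs {m n : ℤ} (h1 : (m : ℝ) - n < 1) (h2 : (n : ℝ) - m < 1) : m = n := by
  have h3 : m - n < 1 := by exact_mod_cast h1
  have h4 : n - m < 1 := by exact_mod_cast h2
  omega

/-- The stabilizer of the closure of `U2` consists of central integer points. -/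
lemma stab_U2 (g : Heis) (h : g • closure U2 ⊆ closure U2) :
    g.x = 0 ∧ g.y = 0 ∧ ∃ u : ℤ, g.z = u := by
  have q0 : (0 : ℝ) ∈ Icc (0 : ℝ) (1 / 4) := by constructor <;> norm_num
  have q1 : (1 / 4 : ℝ) ∈ Icc (0 : ℝ) (1 / 4) := by constructor <;> norm_num
  -- the first coordinate is an integer
  obtain ⟨P, hP⟩ : ∃ P : ℤ, g.x = P := by
    obtain ⟨p0, -, -, k0, ⟨⟨a1, a2⟩, -, -⟩, e0, -, -⟩ := key_rel g h (mk 0 0 0) ⟨q0, q0, q0⟩
    obtain ⟨p1, -, -, k1, ⟨⟨b1, b2⟩, -, -⟩, e1, -, -⟩ := key_rel g h (mk (1 / 4) 0 0) ⟨q1, q0, q0⟩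
    simp only [x_mk] at e0 e1
    have : p0 = p1 := int_eq_of_abs (by linarith) (by linarith)
    subst this
    exact ⟨p0, by linarith⟩
  obtain ⟨Q, hQ⟩ : ∃ Q : ℤ, g.y = Q := by
    obtain ⟨-, p0, -, k0, ⟨-, ⟨a1, a2⟩, -⟩, -, e0, -⟩ := key_rel g h (mk 0 0 0) ⟨q0, q0, q0⟩
    obtain ⟨-, p1, -, k1, ⟨-, ⟨b1, b2⟩, -⟩, -, e1, -⟩ := key_rel g h (mk 0 (1 / 4) 0) ⟨q0, q1, q0⟩
    simp only [y_mk] at e0 e1
    have : p0 = p1 := int_eq_of_abs (by linarith) (by linarith)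
    subst this
    exact ⟨p0, by linarith⟩
  -- the third coordinate
  have h3 : ∀ a b c : ℝ, a ∈ Icc (0 : ℝ) (1 / 4) → b ∈ Icc (0 : ℝ) (1 / 4) →
      c ∈ Icc (0 : ℝ) (1 / 4) →
      ∃ r : ℤ, g.z + c + P * b - a * Q - r ∈ Icc (0 : ℝ) (1 / 4) := by
    intro a b c ha hb hc
    obtain ⟨p, q, r, k', ⟨hx, hy, hz⟩, e1, e2, e3⟩ := key_rel g h (mk a b c) ⟨ha, hb, hc⟩
    simp only [x_mk, y_mk, z_mk] at e1 e2 e3
    have hp : p = P := by
      apply int_eq_of_abs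
      · linarith [ha.1, ha.2, hx.1, hx.2]
      · linarith [ha.1, ha.2, hx.1, hx.2]
    have hq : q = Q := by
      apply int_eq_of_abs
      · linarith [hb.1, hb.2, hy.1, hy.2]
      · linarith [hb.1, hb.2, hy.1, hy.2]
    subst hp; subst hq
    have hkx : k'.x = a := by linarith
    refine ⟨r, ?_⟩
    have : g.z + c + p * b - a * q - r = k'.z := by
      rw [← hP, ← hkx]; linarith
    rw [this]; exact hz
  have h4 : ∀ a b : ℝ, a ∈ Icc (0 : ℝ) (1 / 4) → b ∈ Icc (0 : ℝ) (1 / 4) →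
      ∃ r : ℤ, g.z + P * b - a * Q = r := by
    intro a b ha hb
    obtain ⟨r0, e0, e0'⟩ := h3 a b 0 ha hb q0
    obtain ⟨r1, e1, e1'⟩ := h3 a b (1 / 4) ha hb q1
    have : r0 = r1 := int_eq_of_abs (by linarith) (by linarith)
    subst this
    exact ⟨r0, by linarith⟩
  obtain ⟨u, hu⟩ := h4 0 0 q0 q0
  simp only [mul_zero, add_zero, zero_mul, sub_zero] at hu
  have hsmall : ∀ S : ℤ, (∀ b ∈ Icc (0 : ℝ) (1 / 4), ∃ r : ℤ, (S : ℝ) * b = r) → S = 0 := by
    intro S hS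
    by_contra hne
    have h1 : (1 : ℝ) ≤ |(S : ℝ)| := by
      have : 1 ≤ |S| := Int.one_le_abs hne
      exact_mod_cast this
    have hpos : (0 : ℝ) < |(S : ℝ)| := by linarith
    obtain ⟨r, hr⟩ := hS (1 / 4 * |(S : ℝ)|⁻¹) ⟨by positivity, by
      have : |(S : ℝ)|⁻¹ ≤ 1 := inv_le_one_of_one_le₀ h1
      linarith⟩
    have h5 : |(r : ℝ)| = 1 / 4 := by
      rw [← hr, abs_mul, abs_mul, abs_inv, abs_abs]
      field_simp
      norm_num
    have h6 : |r| < 1 := by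
      have : |(r : ℝ)| < 1 := by rw [h5]; norm_num
      exact_mod_cast this
    have h7 : r = 0 := Int.abs_lt_one_iff.mp h6
    rw [h7] at h5
    norm_num at h5
  have hP0 : P = 0 := by
    apply hsmall
    intro b hb
    obtain ⟨r, hr⟩ := h4 0 b q0 hb
    refine ⟨r - u, ?_⟩
    push_cast
    linarith
  have hQ0 : Q = 0 := by
    apply hsmall
    intro b hb
    obtain ⟨r, hr⟩ := h4 b 0 hb q0
    refine ⟨u - r, ?_⟩
    push_cast
    linarith
  exact ⟨by rw [hP, hP0]; simp, by rw [hQ, hQ0]; simp, u, hu⟩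

lemma triv1 (g : Heis) (hx : g.x = 0) (hy : g.y = 0) (hz : ∃ u : ℤ, g.z = u)
    (v : Heis ⧸ Gam1) : g • v = v := by
  induction v using QuotientGroup.induction_on with
  | H k =>
    have hc : g * k = k * g := by
      apply Heis.ext
      · simp [hx]
      · simp [hy]
      · simp [hx, hy]; ring
    show ((g * k : Heis) : Heis ⧸ Gam1) = (k : Heis ⧸ Gam1)
    rw [hc]
    exact QuotientGroup.mk_mul_of_mem k ⟨⟨0, by simp [hx]⟩, ⟨0, by simp [hy]⟩, hz⟩

lemma triv2 (g : Heis) (hx : g.x = 0) (hy : g.y = 0) (hz : ∃ u : ℤ, g.z = u)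
    (v : Heis ⧸ Gam2) : g • v = v := by
  obtain ⟨w, rfl⟩ := proj_surjective v
  rw [← proj_smul, triv1 g hx hy hz]

lemma asym_U2 (g : Heis) (h : g • closure U2 = closure U2) (v : Heis ⧸ Gam2) : g • v = v := by
  obtain ⟨hx, hy, hz⟩ := stab_U2 g h.le
  exact triv2 g hx hy hz v

lemma asym_U1 (g : Heis) (h : g • closure U1 = closure U1) (v : Heis ⧸ Gam1) : g • v = v := by
  have h2 : g • closure U2 ⊆ closure U2 := by
    rintro _ ⟨w, hw, rfl⟩
    obtain ⟨w', rfl⟩ := proj_surjective w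
    have h3 : g • w' ∈ closure U1 := by
      rw [← h]
      refine ⟨w', ?_, rfl⟩
      rw [closure_U1]
      exact hw
    rw [closure_U1] at h3
    show g • proj w' ∈ closure U2
    rw [← proj_smul]
    exact h3
  obtain ⟨hx, hy, hz⟩ := stab_U2 g h2
  exact triv1 g hx hy hz v

end Pool.Agent.R239.NilRet
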