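import Mathlib

/-!
The real Heisenberg group as a simply connected nilpotent Lie group, and two lattices in it.
-/

open Set Topology Filter
open scoped Manifold ContDiff Pointwise

namespace Pool.Agent.R239.NilRet

/-- The real Heisenberg group: triples of reals with
`(a, b, c) * (a', b', c') = (a + a', b + b', c + c' + a * b')`. -/
def Heis : Type := ℝ × ℝ × ℝ

namespace Heis

/-- The triple `(a, b, c)` as an element of the Heisenberg group. -/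
def mk (a b c : ℝ) : Heis := (a, b, c)

def x (g : Heis) : ℝ := Prod.fst g
def y (g : Heis) : ℝ := Prod.fst (Prod.snd g)
def z (g : Heis) : ℝ := Prod.snd (Prod.snd g)

@[simp] lemma x_mk (a b c : ℝ) : (mk a b c).x = a := rfl
@[simp] lemma y_mk (a b c : ℝ) : (mk a b c).y = b := rfl
@[simp] lemma z_mk (a b c : ℝ) : (mk a b c).z = c := rfl

lemma eta (g : Heis) : mk g.x g.y g.z = g := rfl

@[ext] lemma ext {g h : Heis} (hx : g.x = h.x) (hy : g.y = h.y) (hz : g.z = h.z) : g = h := by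
  rw [← eta g, ← eta h, hx, hy, hz]

instance : Group Heis where
  mul g h := mk (g.x + h.x) (g.y + h.y) (g.z + h.z + g.x * h.y)
  one := mk 0 0 0
  inv g := mk (-g.x) (-g.y) (-g.z + g.x * g.y)
  mul_assoc g h k := by
    apply ext
    · show g.x + h.x + k.x = g.x + (h.x + k.x); ring
    · show g.y + h.y + k.y = g.y + (h.y + k.y); ring
    · show g.z + h.z + g.x * h.y + k.z + (g.x + h.x) * k.y
        = g.z + (h.z + k.z + h.x * k.y) + g.x * (h.y + k.y)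
      ring
  one_mul g := by
    apply ext
    · show 0 + g.x = g.x; ring
    · show 0 + g.y = g.y; ring
    · show 0 + g.z + 0 * g.y = g.z; ring
  mul_one g := by
    apply ext
    · show g.x + 0 = g.x; ring
    · show g.y + 0 = g.y; ring
    · show g.z + 0 + g.x * 0 = g.z; ring
  inv_mul_cancel g := by
    apply ext
    · show -g.x + g.x = 0; ring
    · show -g.y + g.y = 0; ring
    · show -g.z + g.x * g.y + g.z + (-g.x) * g.y = 0; ring

@[simp] lemma mul_x (g h : Heis) : (g * h).x = g.x + h.x := rfl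
@[simp] lemma mul_y (g h : Heis) : (g * h).y = g.y + h.y := rfl
@[simp] lemma mul_z (g h : Heis) : (g * h).z = g.z + h.z + g.x * h.y := rfl
@[simp] lemma one_x : (1 : Heis).x = 0 := rfl
@[simp] lemma one_y : (1 : Heis).y = 0 := rfl
@[simp] lemma one_z : (1 : Heis).z = 0 := rfl
@[simp] lemma inv_x (g : Heis) : (g⁻¹).x = -g.x := rfl
@[simp] lemma inv_y (g : Heis) : (g⁻¹).y = -g.y := rfl
@[simp] lemma inv_z (g : Heis) : (g⁻¹).z = -g.z + g.x * g.y := rfl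

lemma mk_mul_mk (a b c a' b' c' : ℝ) :
    mk a b c * mk a' b' c' = mk (a + a') (b + b') (c + c' + a * b') := rfl

instance : TopologicalSpace Heis := inferInstanceAs (TopologicalSpace (ℝ × ℝ × ℝ))

instance : PolishSpace Heis := inferInstanceAs (PolishSpace (ℝ × ℝ × ℝ))

instance : ChartedSpace (ℝ × ℝ × ℝ) Heis :=
  inferInstanceAs (ChartedSpace (ℝ × ℝ × ℝ) (ℝ × ℝ × ℝ))

instance : IsManifold 𝓘(ℝ, ℝ × ℝ × ℝ) ω Heis :=
  inferInstanceAs (IsManifold 𝓘(ℝ, ℝ × ℝ × ℝ) ω (ℝ × ℝ × ℝ))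

lemma contDiff_mul_aux : ContDiff ℝ ω (fun p : (ℝ × ℝ × ℝ) × (ℝ × ℝ × ℝ) =>
    (p.1.1 + p.2.1, p.1.2.1 + p.2.2.1, p.1.2.2 + p.2.2.2 + p.1.1 * p.2.2.1)) := by
  fun_prop

lemma contDiff_inv_aux : ContDiff ℝ ω (fun p : ℝ × ℝ × ℝ =>
    (-p.1, -p.2.1, -p.2.2 + p.1 * p.2.1)) := by
  fun_prop

lemma contMDiff_mul_aux : ContMDiff (𝓘(ℝ, ℝ × ℝ × ℝ).prod 𝓘(ℝ, ℝ × ℝ × ℝ)) 𝓘(ℝ, ℝ × ℝ × ℝ) ω
    (fun p : (ℝ × ℝ × ℝ) × (ℝ × ℝ × ℝ) =>
    (p.1.1 + p.2.1, p.1.2.1 + p.2.2.1, p.1.2.2 + p.2.2.2 + p.1.1 * p.2.2.1)) := by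
  rw [contMDiff_iff]
  exact ⟨contDiff_mul_aux.continuous, fun _ _ => contDiff_mul_aux.contDiffOn⟩

instance : LieGroup 𝓘(ℝ, ℝ × ℝ × ℝ) ω Heis where
  contMDiff_mul := contMDiff_mul_aux
  contMDiff_inv := contDiff_inv_aux.contMDiff

instance : IsTopologicalGroup Heis := topologicalGroup_of_lieGroup 𝓘(ℝ, ℝ × ℝ × ℝ) ω

instance : ContractibleSpace Heis := inferInstanceAs (ContractibleSpace (ℝ × ℝ × ℝ))

instance : SimplyConnectedSpace Heis := inferInstance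

instance : ConnectedSpace Heis := inferInstanceAs (ConnectedSpace (ℝ × ℝ × ℝ))

lemma continuous_x : Continuous x := continuous_fst (X := ℝ) (Y := ℝ × ℝ)
lemma continuous_y : Continuous y :=
  (continuous_fst (X := ℝ) (Y := ℝ)).comp (continuous_snd (X := ℝ) (Y := ℝ × ℝ))
lemma continuous_z : Continuous z :=
  (continuous_snd (X := ℝ) (Y := ℝ)).comp (continuous_snd (X := ℝ) (Y := ℝ × ℝ))

lemma continuous_mk {X : Type*} [TopologicalSpace X] {f g h : X → ℝ}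
    (hf : Continuous f) (hg : Continuous g) (hh : Continuous h) :
    Continuous (fun t => mk (f t) (g t) (h t)) := hf.prodMk (hg.prodMk hh)

lemma tendsto_mk {X : Type*} {l : Filter X} {f g h : X → ℝ} {a b c : ℝ}
    (hf : Tendsto f l (𝓝 a)) (hg : Tendsto g l (𝓝 b)) (hh : Tendsto h l (𝓝 c)) :
    Tendsto (fun t => mk (f t) (g t) (h t)) l (𝓝 (mk a b c)) :=
  hf.prodMk_nhds (hg.prodMk_nhds hh)

lemma comm_mem_center (g h : Heis) : g * h * g⁻¹ * h⁻¹ ∈ Subgroup.center Heis := by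
  rw [Subgroup.mem_center_iff]
  intro k
  apply ext
  · simp
  · simp
  · simp; ring

instance : Group.IsNilpotent Heis := by
  rw [Group.isNilpotent_iff]
  refine ⟨2, ?_⟩
  rw [eq_top_iff]
  intro g _
  rw [Subgroup.mem_upperCentralSeries_succ_iff]
  intro h
  rw [Subgroup.upperCentralSeries_one]
  exact comm_mem_center g h

end Heis

open Heis

/-- The lattice of integer points. -/
def Gam2 : Subgroup Heis where
  carrier := {g | (∃ p : ℤ, g.x = p) ∧ (∃ q : ℤ, g.y = q) ∧ ∃ r : ℤ, g.z = r}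
  mul_mem' := by
    rintro g h ⟨⟨p, hp⟩, ⟨q, hq⟩, ⟨r, hr⟩⟩ ⟨⟨p', hp'⟩, ⟨q', hq'⟩, ⟨r', hr'⟩⟩
    refine ⟨⟨p + p', ?_⟩, ⟨q + q', ?_⟩, ⟨r + r' + p * q', ?_⟩⟩
    · simp [hp, hp']
    · simp [hq, hq']
    · simp [hp, hr, hr', hq']
  one_mem' := ⟨⟨0, by simp⟩, ⟨0, by simp⟩, ⟨0, by simp⟩⟩
  inv_mem' := by
    rintro g ⟨⟨p, hp⟩, ⟨q, hq⟩, ⟨r, hr⟩⟩
    refine ⟨⟨-p, ?_⟩, ⟨-q, ?_⟩, ⟨-r + p * q, ?_⟩⟩
    · simp [hp]
    · simp [hq]
    · simp [hp, hr, hq]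

/-- The lattice of integer points with even first coordinate. -/
def Gam1 : Subgroup Heis where
  carrier := {g | (∃ p : ℤ, g.x = 2 * p) ∧ (∃ q : ℤ, g.y = q) ∧ ∃ r : ℤ, g.z = r}
  mul_mem' := by
    rintro g h ⟨⟨p, hp⟩, ⟨q, hq⟩, ⟨r, hr⟩⟩ ⟨⟨p', hp'⟩, ⟨q', hq'⟩, ⟨r', hr'⟩⟩
    refine ⟨⟨p + p', ?_⟩, ⟨q + q', ?_⟩, ⟨r + r' + 2 * p * q', ?_⟩⟩
    · simp [hp, hp']; ring
    · simp [hq, hq']
    · simp [hp, hr, hr', hq']
  one_mem' := ⟨⟨0, by simp⟩, ⟨0, by simp⟩, ⟨0, by simp⟩⟩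
  inv_mem' := by
    rintro g ⟨⟨p, hp⟩, ⟨q, hq⟩, ⟨r, hr⟩⟩
    refine ⟨⟨-p, ?_⟩, ⟨-q, ?_⟩, ⟨-r + 2 * p * q, ?_⟩⟩
    · simp [hp]
    · simp [hq]
    · simp [hp, hr, hq]

lemma mem_Gam2 (g : Heis) : g ∈ Gam2 ↔
    (∃ p : ℤ, g.x = p) ∧ (∃ q : ℤ, g.y = q) ∧ ∃ r : ℤ, g.z = r := Iff.rfl

lemma mem_Gam1 (g : Heis) : g ∈ Gam1 ↔
    (∃ p : ℤ, g.x = 2 * p) ∧ (∃ q : ℤ, g.y = q) ∧ ∃ r : ℤ, g.z = r := Iff.rfl

lemma mk_mem_Gam2 (p q r : ℤ) : Heis.mk p q r ∈ Gam2 := ⟨⟨p, rfl⟩, ⟨q, rfl⟩, ⟨r, rfl⟩⟩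
lemma mk_mem_Gam1 (p q r : ℤ) : Heis.mk (2 * p) q r ∈ Gam1 := ⟨⟨p, rfl⟩, ⟨q, rfl⟩, ⟨r, rfl⟩⟩

lemma Gam1_le_Gam2 : Gam1 ≤ Gam2 := by
  rintro g ⟨⟨p, hp⟩, hq, hr⟩
  exact ⟨⟨2 * p, by rw [hp]; push_cast; ring⟩, hq, hr⟩

lemma Gam2_discrete_nhds : ∃ V ∈ 𝓝 (1 : Heis), ∀ g ∈ V, g ∈ Gam2 → g = 1 := by
  refine ⟨{g | |g.x| < 1} ∩ {g | |g.y| < 1} ∩ {g | |g.z| < 1}, ?_, ?_⟩
  · apply IsOpen.mem_nhds
    · refine ((isOpen_lt ?_ continuous_const).inter (isOpen_lt ?_ continuous_const)).inter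
        (isOpen_lt ?_ continuous_const)
      · exact continuous_x.abs
      · exact continuous_y.abs
      · exact continuous_z.abs
    · simp
  · rintro g ⟨⟨h1, h2⟩, h3⟩ ⟨⟨p, hp⟩, ⟨q, hq⟩, ⟨r, hr⟩⟩
    have key : ∀ n : ℤ, |(n : ℝ)| < 1 → n = 0 := by
      intro n hn
      have : |n| < 1 := by exact_mod_cast hn
      exact Int.abs_lt_one_iff.mp this
    simp only [mem_ofPred_eq] at h1 h2 h3
    rw [hp] at h1; rw [hq] at h2; rw [hr] at h3
    apply Heis.ext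
    · rw [hp, key p h1]; simp
    · rw [hq, key q h2]; simp
    · rw [hr, key r h3]; simp

lemma discrete_of_nhds (Γ : Subgroup Heis)
    (h : ∃ V ∈ 𝓝 (1 : Heis), ∀ g ∈ V, g ∈ Γ → g = 1) : DiscreteTopology Γ := by
  obtain ⟨V, hV, hV1⟩ := h
  apply discreteTopology_of_isOpen_singleton_one
  rw [isOpen_singleton_iff_nhds_eq_pure]
  apply le_antisymm _ (pure_le_nhds _)
  rw [Filter.le_pure_iff]
  have : (Subtype.val : Γ → Heis) ⁻¹' V ∈ 𝓝 (1 : Γ) :=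
    continuous_subtype_val.continuousAt.preimage_mem_nhds (by simpa using hV)
  filter_upwards [this] with g hg
  have := hV1 g.1 hg g.2
  exact Subtype.ext this

instance : DiscreteTopology Gam2 := discrete_of_nhds _ Gam2_discrete_nhds

instance : DiscreteTopology Gam1 := by
  obtain ⟨V, hV, hV1⟩ := Gam2_discrete_nhds
  exact discrete_of_nhds _ ⟨V, hV, fun g hg hg1 => hV1 g hg (Gam1_le_Gam2 hg1)⟩

lemma isCompact_box (a a' b b' c c' : ℝ) :
    IsCompact {g : Heis | g.x ∈ Icc a a' ∧ g.y ∈ Icc b b' ∧ g.z ∈ Icc c c'} := by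
  have : IsCompact (Icc a a' ×ˢ (Icc b b' ×ˢ Icc c c') : Set (ℝ × ℝ × ℝ)) :=
    isCompact_Icc.prod (isCompact_Icc.prod isCompact_Icc)
  exact this

/-- Every point can be moved into the box `[0,2) x [0,1) x [0,1)` by the lattice `Gam1`. -/
lemma exists_reduce1 (g : Heis) : ∃ γ ∈ Gam1, (g * γ).x ∈ Icc (0 : ℝ) 2 ∧
    (g * γ).y ∈ Icc (0 : ℝ) 1 ∧ (g * γ).z ∈ Icc (0 : ℝ) 1 := by
  set p : ℤ := -⌊g.x / 2⌋
  set q : ℤ := -⌊g.y⌋
  set r : ℤ := -⌊g.z + g.x * q⌋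
  refine ⟨Heis.mk (2 * p) q r, mk_mem_Gam1 p q r, ?_, ?_, ?_⟩
  · have h1 := Int.floor_le (g.x / 2)
    have h2 := Int.lt_floor_add_one (g.x / 2)
    simp only [mul_x, x_mk, p, mem_Icc]
    push_cast
    constructor <;> linarith
  · have h1 := Int.floor_le g.y
    have h2 := Int.lt_floor_add_one g.y
    simp only [mul_y, y_mk, q, mem_Icc]
    push_cast
    constructor <;> linarith
  · have h1 := Int.floor_le (g.z + g.x * q)
    have h2 := Int.lt_floor_add_one (g.z + g.x * q)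
    simp only [mul_z, z_mk, y_mk, r, mem_Icc]
    push_cast
    constructor <;> linarith

instance : CompactSpace (Heis ⧸ Gam1) := by
  have hc := (isCompact_box 0 2 0 1 0 1).image
    (QuotientGroup.continuous_mk (N := Gam1))
  refine ⟨?_⟩
  convert hc
  symm
  rw [eq_univ_iff_forall]
  intro q
  induction q using QuotientGroup.induction_on with
  | H g =>
    obtain ⟨γ, hγ, h1, h2, h3⟩ := exists_reduce1 g
    refine ⟨g * γ, ⟨h1, h2, h3⟩, ?_⟩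
    exact QuotientGroup.mk_mul_of_mem g hγ

/-- The projection between the two nilmanifolds. -/
def proj : Heis ⧸ Gam1 → Heis ⧸ Gam2 := Subgroup.quotientMapOfLE Gam1_le_Gam2

@[simp] lemma proj_mk (g : Heis) : proj (g : Heis ⧸ Gam1) = (g : Heis ⧸ Gam2) := rfl

lemma proj_smul (g : Heis) (q : Heis ⧸ Gam1) : proj (g • q) = g • proj q := by
  induction q using QuotientGroup.induction_on with
  | H h => rfl

lemma proj_surjective : Function.Surjective proj := by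
  intro q
  induction q using QuotientGroup.induction_on with
  | H g => exact ⟨(g : Heis ⧸ Gam1), rfl⟩

lemma proj_continuous : Continuous proj := by
  have : Continuous (fun g : Heis => (g : Heis ⧸ Gam2)) := QuotientGroup.continuous_mk
  exact (QuotientGroup.isQuotientMap_mk (N := Gam1)).continuous_iff.mpr this

lemma proj_isOpenMap : IsOpenMap proj := by
  intro V hV
  have h1 : IsOpen ((fun g : Heis => (g : Heis ⧸ Gam1)) ⁻¹' V) :=
    hV.preimage QuotientGroup.continuous_mk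
  have h2 := QuotientGroup.isOpenMap_coe (N := Gam2) _ h1
  convert h2 using 1
  ext q
  constructor
  · rintro ⟨v, hv, rfl⟩
    induction v using QuotientGroup.induction_on with
    | H g => exact ⟨g, hv, rfl⟩
  · rintro ⟨g, hg, rfl⟩
    exact ⟨(g : Heis ⧸ Gam1), hg, rfl⟩

instance : CompactSpace (Heis ⧸ Gam2) := by
  refine ⟨?_⟩
  rw [← proj_surjective.range_eq]
  exact isCompact_range proj_continuous

end Pool.Agent.R239.NilRet
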