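import Pool.Agent.R239.NilRet.Basic
import Pool.Agent.R239.NilRet.Plane

/-!
Minimality of the nilrotation by `(sqrt 2, sqrt 3, 0)` on the Heisenberg nilmanifolds.
-/

open Set Topology Filter
open scoped Pointwise

namespace Pool.Agent.R239.NilRet

open Heis

/-- The translating element. -/
noncomputable def tau : Heis := Heis.mk (Real.sqrt 2) (Real.sqrt 3) 0

lemma tau_pow (n : ℕ) : ∃ γ : ℝ, tau ^ n = Heis.mk (n * Real.sqrt 2) (n * Real.sqrt 3) γ := by
  induction n with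
  | zero =>
    refine ⟨0, ?_⟩
    apply Heis.ext <;> simp
  | succ n ih =>
    obtain ⟨γ, hγ⟩ := ih
    refine ⟨γ + 0 + n * Real.sqrt 2 * Real.sqrt 3, ?_⟩
    rw [pow_succ, hγ, tau, mk_mul_mk]
    push_cast
    congr 1
    · ring
    · ring

/-- A closed set of lifts which is invariant under the lattice and the translation. -/
structure Inv (M : Set Heis) : Prop where
  closed : IsClosed M
  ne : M.Nonempty
  right : ∀ g ∈ M, ∀ γ ∈ Gam1, g * γ ∈ M
  left : ∀ g ∈ M, tau * g ∈ M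
  left' : ∀ g ∈ M, tau⁻¹ * g ∈ M

namespace Inv

variable {M : Set Heis} (hM : Inv M)

include hM

lemma reduce_z {a b c : ℝ} (h : Heis.mk a b c ∈ M) : Heis.mk a b (Int.fract c) ∈ M := by
  have h1 := hM.right _ h (Heis.mk (2 * ((0 : ℤ) : ℝ)) ((0 : ℤ) : ℝ) ((-⌊c⌋ : ℤ) : ℝ)) (mk_mem_Gam1 _ _ _)
  rw [mk_mul_mk] at h1
  convert h1 using 1
  congr 1
  · simp
  · simp
  · push_cast
    rw [Int.fract]
    ring

lemma closed_proj : IsClosed {p : ℝ × ℝ | ∃ c, Heis.mk p.1 p.2 c ∈ M} := by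
  have h1 : IsClosed {q : (ℝ × ℝ) × Icc (0 : ℝ) 1 | Heis.mk q.1.1 q.1.2 q.2 ∈ M} := by
    apply hM.closed.preimage
    apply continuous_mk
    · fun_prop
    · fun_prop
    · fun_prop
  have h2 := isClosedMap_fst_of_compactSpace (X := ℝ × ℝ) (Y := Icc (0 : ℝ) 1) _ h1
  convert h2 using 1
  ext p
  constructor
  · rintro ⟨c, hc⟩
    refine ⟨(p, ⟨Int.fract c, Int.fract_nonneg c, (Int.fract_lt_one c).le⟩), ?_, rfl⟩
    exact hM.reduce_z hc
  · rintro ⟨q, hq, rfl⟩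
    exact ⟨_, hq⟩

lemma proj_full (a b : ℝ) : ∃ c, Heis.mk a b c ∈ M := by
  set P : Set (ℝ × ℝ) := {p : ℝ × ℝ | ∃ c, Heis.mk p.1 p.2 c ∈ M} with hP
  have hPc : IsClosed P := hM.closed_proj
  let K : AddSubgroup (ℝ × ℝ) :=
    { carrier := {v | (∀ p ∈ P, p + v ∈ P) ∧ ∀ p ∈ P, p - v ∈ P}
      add_mem' := by
        rintro v w ⟨h1, h2⟩ ⟨h3, h4⟩
        refine ⟨fun p hp => ?_, fun p hp => ?_⟩
        · rw [← add_assoc]; exact h3 _ (h1 _ hp)
        · rw [← sub_sub]; exact h4 _ (h2 _ hp)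
      zero_mem' := ⟨fun p hp => by simpa using hp, fun p hp => by simpa using hp⟩
      neg_mem' := by
        rintro v ⟨h1, h2⟩
        refine ⟨fun p hp => ?_, fun p hp => ?_⟩
        · rw [← sub_eq_add_neg]; exact h2 _ hp
        · rw [sub_neg_eq_add]; exact h1 _ hp }
  have hK : IsClosed (K : Set (ℝ × ℝ)) := by
    have e : (K : Set (ℝ × ℝ)) = (⋂ p ∈ P, {v | p + v ∈ P}) ∩ ⋂ p ∈ P, {v | p - v ∈ P} := by
      ext v
      simp only [mem_inter_iff, mem_iInter]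
      exact Iff.rfl
    rw [e]
    refine (isClosed_biInter fun p _ => ?_).inter (isClosed_biInter fun p _ => ?_)
    · exact hPc.preimage (continuous_const.add continuous_id)
    · exact hPc.preimage (continuous_const.sub continuous_id)
  have hPmem : ∀ (p : ℝ × ℝ) (g : Heis), g ∈ M → p.1 = g.x → p.2 = g.y → p ∈ P := by
    intro p g hg hx hy
    refine ⟨g.z, ?_⟩
    rw [hx, hy]
    exact hg
  have h1 : (Real.sqrt 2, Real.sqrt 3) ∈ K := by
    refine ⟨?_, ?_⟩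
    · rintro ⟨a, b⟩ ⟨c, hc⟩
      exact hPmem _ _ (hM.left _ hc) (by simp [tau]; ring) (by simp [tau]; ring)
    · rintro ⟨a, b⟩ ⟨c, hc⟩
      exact hPmem _ _ (hM.left' _ hc) (by simp [tau]; ring) (by simp [tau]; ring)
  have h2 : ((2 : ℝ), (0 : ℝ)) ∈ K := by
    refine ⟨?_, ?_⟩
    · rintro ⟨a, b⟩ ⟨c, hc⟩
      exact hPmem _ _ (hM.right _ hc _ (mk_mem_Gam1 1 0 0)) (by simp) (by simp)
    · rintro ⟨a, b⟩ ⟨c, hc⟩
      exact hPmem _ _ (hM.right _ hc _ (mk_mem_Gam1 (-1) 0 0)) (by simp; ring) (by simp)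
  have h3 : ((0 : ℝ), (1 : ℝ)) ∈ K := by
    refine ⟨?_, ?_⟩
    · rintro ⟨a, b⟩ ⟨c, hc⟩
      exact hPmem _ _ (hM.right _ hc _ (mk_mem_Gam1 0 1 0)) (by simp) (by simp)
    · rintro ⟨a, b⟩ ⟨c, hc⟩
      exact hPmem _ _ (hM.right _ hc _ (mk_mem_Gam1 0 (-1) 0)) (by simp) (by simp; ring)
  obtain ⟨g, hg⟩ := hM.ne
  have hgP : (g.x, g.y) ∈ P := ⟨g.z, hg⟩
  have hv := plane_top (Real.sqrt 2) (Real.sqrt 3) irrational_sqrt_two indep K hK h1 h2 h3
    ((a, b) - (g.x, g.y))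
  have := hv.1 _ hgP
  rw [add_sub_cancel] at this
  exact this

lemma step (d ε : ℝ) (hε : 0 < ε) (hε2 : ε ≤ 1 / 2) : ∃ a c e f : ℝ, a ∈ Icc (0 : ℝ) 1 ∧
    c ∈ Icc (0 : ℝ) 1 ∧ |e| ≤ ε ∧ |f| ≤ ε ∧ Heis.mk a 0 c ∈ M ∧ Heis.mk (a + e) f (c + d) ∈ M := by
  obtain ⟨n, hn, P, Q, hP, hQ⟩ := recur (Real.sqrt 2) (Real.sqrt 3) ε hε
  obtain ⟨γ, hγ⟩ := tau_pow n
  have h3 : (1 : ℝ) ≤ Real.sqrt 3 := by
    rw [Real.one_le_sqrt]; norm_num
  have hn1 : (1 : ℝ) ≤ n := by exact_mod_cast hn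
  have hQ1 : (1 : ℝ) ≤ Q := by
    have h4 : (1 : ℝ) ≤ n * Real.sqrt 3 := by nlinarith
    have h5 := (abs_lt.mp hQ).2
    have h6 : (0 : ℝ) < Q := by linarith
    have h7 : (0 : ℤ) < Q := by exact_mod_cast h6
    exact_mod_cast h7
  have hQ0 : (0 : ℝ) < Q := by linarith
  set C : ℝ := γ - n * Real.sqrt 2 * Q - d with hC
  set a : ℝ := Int.fract C / Q with ha
  have ha01 : a ∈ Icc (0 : ℝ) 1 := by
    refine ⟨div_nonneg (Int.fract_nonneg C) hQ0.le, ?_⟩
    rw [ha, div_le_one hQ0]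
    linarith [(Int.fract_lt_one C).le]
  obtain ⟨c0, hc0⟩ := hM.proj_full a 0
  have hc := hM.reduce_z hc0
  set c : ℝ := Int.fract c0
  have hc01 : c ∈ Icc (0 : ℝ) 1 := ⟨Int.fract_nonneg c0, (Int.fract_lt_one c0).le⟩
  have hpow : ∀ m : ℕ, ∀ g ∈ M, tau ^ m * g ∈ M := by
    intro m
    induction m with
    | zero => intro g hg; simpa using hg
    | succ m ih =>
      intro g hg
      rw [pow_succ', mul_assoc]
      exact hM.left _ (ih g hg)
  have h8 := hpow n _ hc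
  have h9 := hM.right _ h8 _ (mk_mem_Gam1 (-P) (-Q) (-⌊C⌋))
  rw [hγ, mk_mul_mk, mk_mul_mk] at h9
  refine ⟨a, c, n * Real.sqrt 2 - 2 * P, n * Real.sqrt 3 - Q, ha01, hc01, hP.le, hQ.le, hc, ?_⟩
  convert h9 using 2
  · push_cast; ring
  · push_cast; ring
  · push_cast
    have e1 : a * Q = Int.fract C := by
      rw [ha]; field_simp
    have e2 : Int.fract C = C - ⌊C⌋ := rfl
    have e3 : γ = C + n * Real.sqrt 2 * Q + d := by rw [hC]; ring
    rw [e3]
    linarith [e1, e2]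

lemma central (d : ℝ) : ∃ a c : ℝ, Heis.mk a 0 c ∈ M ∧ Heis.mk a 0 (c + d) ∈ M := by
  have hpos : ∀ j : ℕ, (0 : ℝ) < 1 / (j + 1 + 1) := fun j => by positivity
  have hle : ∀ j : ℕ, (1 : ℝ) / (j + 1 + 1) ≤ 1 / 2 := fun j => by
    apply one_div_le_one_div_of_le (by norm_num)
    have : (0 : ℝ) ≤ j := Nat.cast_nonneg j
    linarith
  choose a c e f ha hc he hf h1 h2 using fun j : ℕ => hM.step d (1 / ((j : ℝ) + 1 + 1)) (hpos j) (hle j)
  have hmem : ∀ j, (a j, c j) ∈ Icc (0 : ℝ) 1 ×ˢ Icc (0 : ℝ) 1 := fun j => ⟨ha j, hc j⟩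
  obtain ⟨⟨A, C⟩, -, φ, hφ, hlim⟩ := (isCompact_Icc.prod isCompact_Icc).tendsto_subseq hmem
  have hA : Tendsto (fun j => a (φ j)) atTop (𝓝 A) := (continuous_fst.tendsto _).comp hlim
  have hC : Tendsto (fun j => c (φ j)) atTop (𝓝 C) := (continuous_snd.tendsto _).comp hlim
  have hz : Tendsto (fun j : ℕ => 1 / ((j : ℝ) + 1 + 1)) atTop (𝓝 0) := by
    have := (tendsto_one_div_add_atTop_nhds_zero_nat (𝕜 := ℝ)).comp (tendsto_add_atTop_nat 1)
    refine this.congr fun j => ?_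
    simp
  have he0 : Tendsto e atTop (𝓝 0) := squeeze_zero_norm he hz
  have hf0 : Tendsto f atTop (𝓝 0) := squeeze_zero_norm hf hz
  refine ⟨A, C, ?_, ?_⟩
  · exact hM.closed.mem_of_tendsto (tendsto_mk hA tendsto_const_nhds hC)
      (Eventually.of_forall fun j => h1 (φ j))
  · have h3 : Tendsto (fun j => a (φ j) + e (φ j)) atTop (𝓝 A) := by
      simpa using hA.add (he0.comp hφ.tendsto_atTop)
    have h4 : Tendsto (fun j => f (φ j)) atTop (𝓝 0) := hf0.comp hφ.tendsto_atTop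
    have h5 : Tendsto (fun j => c (φ j) + d) atTop (𝓝 (C + d)) := hC.add tendsto_const_nhds
    exact hM.closed.mem_of_tendsto (tendsto_mk h3 h4 h5) (Eventually.of_forall fun j => h2 (φ j))

end Inv

/-- Closed, nonempty and forward invariant subsets of the nilmanifold. -/
def Good (M : Set (Heis ⧸ Gam1)) : Prop :=
  IsClosed M ∧ M.Nonempty ∧ ∀ v ∈ M, tau • v ∈ M

lemma Good.lift_inv {M : Set (Heis ⧸ Gam1)} (hM : Good M)
    (hmin : ∀ M' : Set (Heis ⧸ Gam1), Good M' → M' ⊆ M → M ⊆ M') :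
    Inv ((fun g : Heis => (g : Heis ⧸ Gam1)) ⁻¹' M) where
  closed := hM.1.preimage QuotientGroup.continuous_mk
  ne := by
    obtain ⟨v, hv⟩ := hM.2.1
    induction v using QuotientGroup.induction_on with
    | H g => exact ⟨g, hv⟩
  right := by
    intro g hg γ hγ
    show ((g * γ : Heis) : Heis ⧸ Gam1) ∈ M
    rw [QuotientGroup.mk_mul_of_mem g hγ]
    exact hg
  left := fun g hg => hM.2.2 _ hg
  left' := by
    intro g hg
    have h1 : Good (tau • M) := by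
      refine ⟨hM.1.smul tau, hM.2.1.image _, ?_⟩
      rintro _ ⟨v, hv, rfl⟩
      exact ⟨tau • v, hM.2.2 v hv, rfl⟩
    have h2 : tau • M ⊆ M := by
      rintro _ ⟨v, hv, rfl⟩
      exact hM.2.2 v hv
    obtain ⟨w, hw, hw2⟩ := hmin _ h1 h2 hg
    have h3 : tau⁻¹ • ((g : Heis) : Heis ⧸ Gam1) = w := by
      rw [inv_smul_eq_iff]; exact hw2.symm
    show tau⁻¹ • ((g : Heis) : Heis ⧸ Gam1) ∈ M
    rw [h3]
    exact hw

lemma comm_central (d : ℝ) (g : Heis) : Heis.mk 0 0 d * g = g * Heis.mk 0 0 d := by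
  apply Heis.ext
  · simp
  · simp
  · simp; ring

lemma Good.eq_univ {M : Set (Heis ⧸ Gam1)} (hM : Good M)
    (hmin : ∀ M' : Set (Heis ⧸ Gam1), Good M' → M' ⊆ M → M ⊆ M') : M = univ := by
  have hI := hM.lift_inv hmin
  have hcen : ∀ d : ℝ, ∀ v ∈ M, Heis.mk 0 0 d • v ∈ M := by
    intro d
    have hG : Good (M ∩ {v | Heis.mk 0 0 d • v ∈ M}) := by
      refine ⟨hM.1.inter (hM.1.preimage (continuous_const_smul _)), ?_, ?_⟩
      · obtain ⟨a, c, h1, h2⟩ := hI.central d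
        refine ⟨((Heis.mk a 0 c : Heis) : Heis ⧸ Gam1), h1, ?_⟩
        have : Heis.mk 0 0 d * Heis.mk a 0 c = Heis.mk a 0 (c + d) := by
          rw [mk_mul_mk]
          congr 1
          · ring
          · ring
          · ring
        show ((Heis.mk 0 0 d * Heis.mk a 0 c : Heis) : Heis ⧸ Gam1) ∈ M
        rw [this]
        exact h2
      · rintro v ⟨hv1, hv2⟩
        refine ⟨hM.2.2 v hv1, ?_⟩
        show Heis.mk 0 0 d • tau • v ∈ M
        rw [smul_smul, comm_central, ← smul_smul]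
        exact hM.2.2 _ hv2
    intro v hv
    exact (hmin _ hG inter_subset_left hv).2
  rw [eq_univ_iff_forall]
  intro v
  induction v using QuotientGroup.induction_on with
  | H g =>
    obtain ⟨c, hc⟩ := hI.proj_full g.x g.y
    have h1 := hcen (g.z - c) _ hc
    have h2 : Heis.mk 0 0 (g.z - c) * Heis.mk g.x g.y c = g := by
      apply Heis.ext
      · simp
      · simp
      · simp
    have h3 : ((Heis.mk 0 0 (g.z - c) * Heis.mk g.x g.y c : Heis) : Heis ⧸ Gam1) ∈ M := h1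
    rw [h2] at h3
    exact h3

lemma exists_minimal (O : Set (Heis ⧸ Gam1)) (hO : Good O) :
    ∃ M, M ⊆ O ∧ Good M ∧ ∀ M' : Set (Heis ⧸ Gam1), Good M' → M' ⊆ M → M ⊆ M' := by
  obtain ⟨m, hm1, hm2⟩ := zorn_superset_nonempty {M | Good M} (by
    intro c hc hchain hne
    refine ⟨⋂₀ c, ⟨isClosed_sInter fun s hs => (hc hs).1, ?_, ?_⟩, fun s hs => sInter_subset_of_mem hs⟩
    · have : Nonempty c := hne.to_subtype
      apply IsCompact.nonempty_sInter_of_directed_nonempty_isCompact_isClosed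
      · intro s hs t ht
        rcases hchain.total hs ht with h | h
        · exact ⟨s, hs, le_rfl, h⟩
        · exact ⟨t, ht, h, le_rfl⟩
      · exact fun s hs => (hc hs).2.1
      · exact fun s hs => (hc hs).1.isCompact
      · exact fun s hs => (hc hs).1
    · intro v hv s hs
      exact (hc hs).2.2 v (hv s hs)) O hO
  exact ⟨m, hm1, hm2.1, fun M' h1 h2 => hm2.2 h1 h2⟩

/-- The nilrotation on the double cover is minimal. -/
theorem minimal1 (v : Heis ⧸ Gam1) : Dense (range fun n : ℤ => tau ^ n • v) := by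
  have hG : Good (closure (range fun n : ℤ => tau ^ n • v)) := by
    refine ⟨isClosed_closure, ⟨v, subset_closure ⟨0, by simp⟩⟩, ?_⟩
    intro w hw
    refine map_mem_closure (continuous_const_smul tau) hw ?_
    rintro _ ⟨n, rfl⟩
    refine ⟨n + 1, ?_⟩
    show tau ^ (n + 1) • v = tau • tau ^ n • v
    rw [smul_smul, zpow_add_one, (Commute.self_zpow tau n).eq]
  obtain ⟨M, h1, h2, h3⟩ := exists_minimal _ hG
  have h4 := h2.eq_univ h3
  rw [h4] at h1
  intro w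
  exact h1 (mem_univ w)

/-- The nilrotation on the nilmanifold of the integer lattice is minimal. -/
theorem minimal2 (v : Heis ⧸ Gam2) : Dense (range fun n : ℤ => tau ^ n • v) := by
  obtain ⟨w, rfl⟩ := proj_surjective v
  have h1 : DenseRange fun n : ℤ => tau ^ n • w := minimal1 w
  have h2 := proj_surjective.denseRange.comp h1 proj_continuous
  have e : (fun n : ℤ => tau ^ n • proj w) = proj ∘ fun n : ℤ => tau ^ n • w := by
    funext n
    exact (proj_smul _ _).symm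
  rw [e]
  exact h2

end Pool.Agent.R239.NilRet
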