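import Pool.Agent.R239.NilRet.Min

/-!
The nilrotations on the two Heisenberg nilmanifolds are not isomorphic: the one on the double cover
has the eigenvalue `exp (i pi sqrt 2)`, the other one does not.
-/

open Set Topology Filter
open scoped Pointwise

namespace Pool.Agent.R239.NilRet

open Heis

/-- The eigenfunction on the double cover. -/
noncomputable def e1 : Heis ⧸ Gam1 → ℂ :=
  Quotient.lift (fun g : Heis => Complex.exp (Real.pi * g.x * Complex.I)) (by
    intro a b hab
    have h : a⁻¹ * b ∈ Gam1 := QuotientGroup.leftRel_apply.mp hab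
    obtain ⟨⟨p, hp⟩, -, -⟩ := h
    simp only [mul_x, inv_x] at hp
    have hb : b.x = a.x + 2 * p := by linarith
    show Complex.exp (Real.pi * a.x * Complex.I) = Complex.exp (Real.pi * b.x * Complex.I)
    rw [hb]
    rw [Complex.exp_eq_exp_iff_exists_int]
    refine ⟨-p, ?_⟩
    push_cast
    ring)

/-- The first eigenfunction on the nilmanifold of the integer lattice. -/
noncomputable def e2 : Heis ⧸ Gam2 → ℂ :=
  Quotient.lift (fun g : Heis => Complex.exp (2 * Real.pi * g.x * Complex.I)) (by
    intro a b hab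
    have h : a⁻¹ * b ∈ Gam2 := QuotientGroup.leftRel_apply.mp hab
    obtain ⟨⟨p, hp⟩, -, -⟩ := h
    simp only [mul_x, inv_x] at hp
    have hb : b.x = a.x + p := by linarith
    show Complex.exp (2 * Real.pi * a.x * Complex.I) = Complex.exp (2 * Real.pi * b.x * Complex.I)
    rw [hb]
    rw [Complex.exp_eq_exp_iff_exists_int]
    refine ⟨-p, ?_⟩
    push_cast
    ring)

lemma e1_mk (g : Heis) : e1 (g : Heis ⧸ Gam1) = Complex.exp (Real.pi * g.x * Complex.I) := rfl
lemma e2_mk (g : Heis) : e2 (g : Heis ⧸ Gam2) = Complex.exp (2 * Real.pi * g.x * Complex.I) := rfl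

lemma continuous_e1 : Continuous e1 := by
  have h : Continuous fun g : Heis => Complex.exp (Real.pi * g.x * Complex.I) := by
    apply Complex.continuous_exp.comp
    exact (continuous_const.mul (Complex.continuous_ofReal.comp continuous_x)).mul continuous_const
  exact (QuotientGroup.isQuotientMap_mk (N := Gam1)).continuous_iff.mpr h

lemma continuous_e2 : Continuous e2 := by
  have h : Continuous fun g : Heis => Complex.exp (2 * Real.pi * g.x * Complex.I) := by
    apply Complex.continuous_exp.comp
    exact (continuous_const.mul (Complex.continuous_ofReal.comp continuous_x)).mul continuous_const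
  exact (QuotientGroup.isQuotientMap_mk (N := Gam2)).continuous_iff.mpr h

lemma e1_smul (v : Heis ⧸ Gam1) :
    e1 (tau • v) = Complex.exp (Real.pi * Real.sqrt 2 * Complex.I) * e1 v := by
  induction v using QuotientGroup.induction_on with
  | H g =>
    show e1 ((tau * g : Heis) : Heis ⧸ Gam1) = _
    rw [e1_mk, e1_mk, ← Complex.exp_add]
    congr 1
    simp only [mul_x, tau, x_mk]
    push_cast
    ring

lemma e2_smul (v : Heis ⧸ Gam2) :
    e2 (tau • v) = Complex.exp (2 * Real.pi * Real.sqrt 2 * Complex.I) * e2 v := by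
  induction v using QuotientGroup.induction_on with
  | H g =>
    show e2 ((tau * g : Heis) : Heis ⧸ Gam2) = _
    rw [e2_mk, e2_mk, ← Complex.exp_add]
    congr 1
    simp only [mul_x, tau, x_mk]
    push_cast
    ring

lemma e1_ne (v : Heis ⧸ Gam1) : e1 v ≠ 0 := by
  induction v using QuotientGroup.induction_on with
  | H g => exact Complex.exp_ne_zero _

lemma e2_ne (v : Heis ⧸ Gam2) : e2 v ≠ 0 := by
  induction v using QuotientGroup.induction_on with
  | H g => exact Complex.exp_ne_zero _

/-- A continuous invariant function on the minimal system is constant. -/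
lemma const_of_inv (F : Heis ⧸ Gam2 → ℂ) (hF : Continuous F) (hinv : ∀ v, F (tau • v) = F v)
    (v w : Heis ⧸ Gam2) : F v = F w := by
  have hz : ∀ n : ℤ, F (tau ^ n • w) = F w := by
    intro n
    induction n using Int.induction_on with
    | zero => simp
    | succ n ih =>
      rw [zpow_add_one, (Commute.self_zpow tau (n : ℤ)).eq.symm, mul_smul, hinv, ih]
    | pred n ih =>
      rw [← ih, ← hinv (tau ^ (-(n : ℤ) - 1) • w), smul_smul, ← zpow_one_add]
      congr 2
      ring_nf
  have h := Continuous.ext_on (minimal2 w) hF (continuous_const (y := F w)) (by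
    rintro _ ⟨n, rfl⟩
    exact hz n)
  exact congrFun h v

theorem not_iso : ¬ ∃ φ : (Heis ⧸ Gam1) ≃ₜ (Heis ⧸ Gam2), ∀ v, φ (tau • v) = tau • φ v := by
  rintro ⟨φ, hφ⟩
  set h : Heis ⧸ Gam2 → ℂ := fun v => e1 (φ.symm v) with hh
  have hcont : Continuous h := continuous_e1.comp φ.symm.continuous
  have hsymm : ∀ v, φ.symm (tau • v) = tau • φ.symm v := by
    intro v
    rw [Homeomorph.symm_apply_eq, hφ, Homeomorph.apply_symm_apply]
  have hne : ∀ v, h v ≠ 0 := fun v => e1_ne _
  have hinv : ∀ v, h (tau • v) ^ 2 * (e2 (tau • v))⁻¹ = h v ^ 2 * (e2 v)⁻¹ := by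
    intro v
    have h1 : h (tau • v) = Complex.exp (Real.pi * Real.sqrt 2 * Complex.I) * h v := by
      show e1 (φ.symm (tau • v)) = _
      rw [hsymm, e1_smul]
    have h2 : Complex.exp (2 * Real.pi * Real.sqrt 2 * Complex.I) =
        Complex.exp (Real.pi * Real.sqrt 2 * Complex.I) ^ 2 := by
      rw [← Complex.exp_nat_mul]
      congr 1
      push_cast
      ring
    have h3 := Complex.exp_ne_zero (Real.pi * Real.sqrt 2 * Complex.I)
    have h4 := e2_ne v
    rw [h1, e2_smul, h2]
    field_simp
  have hc := const_of_inv (fun v => h v ^ 2 * (e2 v)⁻¹)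
    ((hcont.pow 2).mul (continuous_e2.inv₀ e2_ne)) hinv
  -- the loop
  set u : ℝ → ℂ := fun t =>
    h ((Heis.mk t 0 0 : Heis) : Heis ⧸ Gam2) * Complex.exp (-(Real.pi * t * Complex.I)) with hu
  have hucont : Continuous u := by
    apply Continuous.mul
    · apply hcont.comp
      apply QuotientGroup.continuous_mk.comp
      exact continuous_mk continuous_id continuous_const continuous_const
    · apply Complex.continuous_exp.comp
      exact ((continuous_const.mul Complex.continuous_ofReal).mul continuous_const).neg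
  have husq : ∀ t : ℝ, u t ^ 2 = u 0 ^ 2 := by
    have h5 : ∀ t : ℝ, u t ^ 2 = h ((Heis.mk t 0 0 : Heis) : Heis ⧸ Gam2) ^ 2 *
        (e2 ((Heis.mk t 0 0 : Heis) : Heis ⧸ Gam2))⁻¹ := by
      intro t
      rw [e2_mk, ← Complex.exp_neg]
      simp only [hu, x_mk]
      rw [mul_pow, ← Complex.exp_nat_mul]
      congr 2
      push_cast
      ring
    intro t
    rw [h5, h5]
    exact hc _ _
  have hu0 : ∀ t, u t ≠ 0 := fun t => mul_ne_zero (hne _) (Complex.exp_ne_zero _)
  have hper : u 1 = -u 0 := by
    have h6 : ((Heis.mk 1 0 0 : Heis) : Heis ⧸ Gam2) = ((Heis.mk 0 0 0 : Heis) : Heis ⧸ Gam2) := by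
      have := mk_mem_Gam2 1 0 0
      have h7 := QuotientGroup.mk_mul_of_mem (s := Gam2) (Heis.mk 0 0 0) this
      rw [← h7]
      congr 1
      rw [mk_mul_mk]
      congr 1
      · simp
      · simp
      · simp
    simp only [hu]
    rw [h6]
    have h8 : Complex.exp (-(Real.pi * ((1 : ℝ) : ℂ) * Complex.I)) = -1 := by
      rw [Complex.exp_neg]
      simp [Complex.exp_pi_mul_I]
    rw [h8]
    simp
  have hdich := isPreconnected_univ.eq_or_eq_neg_of_sq_eq (f := u) (g := fun _ => u 0)
    hucont.continuousOn continuousOn_const (fun t _ => husq t) (fun _ => hu0 0)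
  rcases hdich with h9 | h9
  · have h10 := h9 (mem_univ (1 : ℝ))
    rw [hper] at h10
    have h11 : u 0 = 0 := by
      have : -u 0 = u 0 := h10
      have h12 : (2 : ℂ) * u 0 = 0 := by linear_combination -this
      simpa using h12
    exact hu0 0 h11
  · have h10 : u 0 = -u 0 := h9 (mem_univ (0 : ℝ))
    have h12 : (2 : ℂ) * u 0 = 0 := by linear_combination h10
    have h11 : u 0 = 0 := by simpa using h12
    exact hu0 0 h11

end Pool.Agent.R239.NilRet
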